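import Pool.Agent.Helper30_SkewP4.Stmts

/-! Modules BASIC and SCAL. -/

set_option autoImplicit false

open scoped Matrix

namespace Pool.Agent.SkewP4.H54

open Pool.Agent.SkewP4

variable {Λ : Type} [Ring Λ] [Algebra ℂ Λ] {M : Model Λ} {n : ℕ}

theorem d_one (M : Model Λ) : M.d 1 = 0 := by
  have := M.d_inc 1
  rwa [map_one] at this

theorem i_one (M : Model Λ) : M.i 1 = 0 := M.i_zero 0 1 M.one_mem

theorem map_d_one (M : Model Λ) : (1 : Matrix (Fin n) (Fin n) Λ).map M.d = 0 := by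
  ext a b
  by_cases h : a = b
  · subst h; simp [d_one]
  · simp [Matrix.one_apply_ne h]

theorem map_i_one (M : Model Λ) : (1 : Matrix (Fin n) (Fin n) Λ).map M.i = 0 := by
  ext a b
  by_cases h : a = b
  · subst h; simp [i_one]
  · simp [Matrix.one_apply_ne h]

theorem basic : BasicStmt := by
  intro Λ _ _ M n W
  have evA : Ev M W.A := MG.ev (p := 0) (q := 0) W.A_mem (by decide)
  have evQ : Ev M W.Q := MG.ev (p := 0) (q := 0) W.Q_mem (by decide)
  have odD : Od M W.D := MG.od (p := 1) (q := 0) W.D_mem (by decide)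
  have evpi : Ev M W.pi := MG.ev (p := 0) (q := 0) W.pi_mem (by decide)
  have eveps : Ev M W.eps := MG.ev (p := 0) (q := 0) W.eps_mem (by decide)
  have odq : Od M W.q := evQ.map_d
  have evP : Ev M W.P := ev_one.sub (evQ.mul evA)
  have evP' : Ev M W.P' := ev_one.sub (evA.mul evQ)
  have evF : Ev M W.F := (odq.mul odD).mul evP
  have evbe : Ev M W.be := (odq.mul_ev evA).mul odq
  have evom : Ev M W.om := (((evP'.mul_od odD).mul_ev evQ).mul odD).mul evP
  have ePd : W.P = 1 - W.Q * W.A := rfl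
  have ePd' : W.P' = 1 - W.A * W.Q := rfl
  have eF : W.F = W.q * W.D * W.P := rfl
  have ebe : W.be = W.q * W.A * W.q := rfl
  have eom : W.om = W.P' * W.D * W.Q * W.D * W.P := rfl
  have AP : W.A * W.P = 0 := by
    rw [ePd, mul_sub, mul_one, ← mul_assoc, W.AQA, sub_self]
  have P'A : W.P' * W.A = 0 := by
    rw [ePd', sub_mul, one_mul, W.AQA, sub_self]
  have PP : W.P * W.P = W.P := by
    nth_rw 1 [ePd]
    rw [sub_mul, one_mul, mul_assoc, AP, mul_zero, sub_zero]
  have P'P' : W.P' * W.P' = W.P' := by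
    nth_rw 2 [ePd']
    rw [mul_sub, mul_one, ← mul_assoc, P'A, zero_mul, sub_zero]
  have PT : W.Pᵀ = W.P' := by
    rw [ePd, ePd', Matrix.transpose_sub, Matrix.transpose_one, evQ.transpose_mul, W.A_skew,
      W.Q_skew, neg_mul_neg]
  have P'T : W.P'ᵀ = W.P := by
    rw [← PT, Matrix.transpose_transpose]
  have AqA : W.A * W.q * W.A = 0 := by
    have h1 : (W.A * W.Q * W.A).map M.d = 0 := by rw [W.AQA, W.dA]
    rw [(evA.mul evQ).map_d_mul, evA.map_d_mul, W.dA, zero_mul, zero_add, mul_zero, add_zero] at h1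
    exact h1
  have P'DP : W.P' * W.D * W.P = 0 := W.iso
  have AQDP : W.A * W.Q * W.D * W.P = W.D * W.P := by
    have h1 := P'DP
    rw [ePd', sub_mul, one_mul, sub_mul, sub_eq_zero] at h1
    exact h1.symm
  have P'DQA : W.P' * W.D * W.Q * W.A = W.P' * W.D := by
    have h1 := P'DP
    rw [ePd, mul_sub, mul_one, sub_eq_zero, ← mul_assoc] at h1
    exact h1.symm
  have AqDP : W.A * W.q * W.D * W.P = 0 := by
    rw [mul_assoc (W.A * W.q), ← AQDP, ← mul_assoc, ← mul_assoc, ← mul_assoc, AqA, zero_mul,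
      zero_mul, zero_mul]
  have P'DqA : W.P' * W.D * W.q * W.A = 0 := by
    rw [← P'DQA, mul_assoc, mul_assoc, ← mul_assoc W.A, AqA, mul_zero]
  have P'DqDP : W.P' * W.D * W.q * W.D * W.P = 0 := by
    rw [mul_assoc (W.P' * W.D * W.q), ← AQDP, ← mul_assoc, ← mul_assoc, ← mul_assoc, P'DqA,
      zero_mul, zero_mul, zero_mul]
  have AF : W.A * W.F = 0 := by
    rw [eF, ← mul_assoc, ← mul_assoc, AqDP]
  have FP : W.F * W.P = W.F := by
    rw [eF, mul_assoc, PP]
  have PF : W.P * W.F = W.F := by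
    rw [ePd, sub_mul, one_mul, mul_assoc, AF, mul_zero, sub_zero]
  have qT : W.qᵀ = -W.q := by
    show (W.Q.map M.d)ᵀ = -(W.Q.map M.d)
    rw [← map_d_transpose, W.Q_skew, map_d_neg]
  have qDT : (W.q * W.D)ᵀ = -(W.D * W.q) := by
    rw [odq.transpose_mul odD, W.D_skew, qT, neg_mul_neg]
  have FT : W.Fᵀ = -(W.P' * W.D * W.q) := by
    rw [eF, Ev.transpose_mul_right _ evP, PT, qDT, mul_neg, mul_assoc]
  have FTA : W.Fᵀ * W.A = 0 := by
    rw [FT, neg_mul, P'DqA, neg_zero]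
  have FTP' : W.Fᵀ * W.P' = W.Fᵀ := by
    rw [ePd', mul_sub, mul_one, ← mul_assoc, FTA, zero_mul, sub_zero]
  have P'FT : W.P' * W.Fᵀ = W.Fᵀ := by
    rw [FT, mul_neg, ← mul_assoc, ← mul_assoc, P'P']
  have beT : W.beᵀ = W.be := by
    rw [ebe, (odq.mul_ev evA).transpose_mul odq, Ev.transpose_mul_right _ evA, W.A_skew, qT,
      neg_mul_neg, neg_mul, neg_neg, mul_assoc]
  have Abe : W.A * W.be = 0 := by
    rw [ebe, ← mul_assoc, ← mul_assoc, AqA, zero_mul]
  have beA : W.be * W.A = 0 := by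
    rw [ebe, mul_assoc, mul_assoc, ← mul_assoc W.A, AqA, mul_zero]
  have Pbe : W.P * W.be = W.be := by
    rw [ePd, sub_mul, one_mul, mul_assoc, Abe, mul_zero, sub_zero]
  have beP' : W.be * W.P' = W.be := by
    rw [ePd', mul_sub, mul_one, ← mul_assoc, beA, zero_mul, sub_zero]
  have omT : W.omᵀ = W.om := by
    have h1 : (W.P' * W.D)ᵀ = -(W.D * W.P) := by
      rw [evP'.transpose_mul, W.D_skew, P'T, neg_mul]
    have h2 : (W.P' * W.D * W.Q)ᵀ = W.Q * (W.D * W.P) := by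
      rw [Ev.transpose_mul_right _ evQ, h1, W.Q_skew, neg_mul_neg]
    have h3 : (W.P' * W.D * W.Q * W.D)ᵀ = W.D * (W.Q * (W.D * W.P)) := by
      rw [((evP'.mul_od odD).mul_ev evQ).transpose_mul odD, h2, W.D_skew, neg_mul, neg_neg]
    rw [eom, Ev.transpose_mul_right _ evP, h3, PT]
    simp only [mul_assoc]
  have P'om : W.P' * W.om = W.om := by
    rw [eom]
    simp only [← mul_assoc]
    rw [P'P']
  have omP : W.om * W.P = W.om := by
    rw [eom, mul_assoc, PP]
  have dq : W.q.map M.d = 0 := map_d_d _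
  have dP : W.P.map M.d = -(W.q * W.A) := by
    rw [ePd, map_d_sub, map_d_one, evQ.map_d_mul, W.dA, mul_zero, add_zero, zero_sub]
    rfl
  have dP' : W.P'.map M.d = -(W.A * W.q) := by
    rw [ePd', map_d_sub, map_d_one, evA.map_d_mul, W.dA, zero_mul, zero_add, zero_sub]
    rfl
  have dbe : W.be.map M.d = 0 := by
    rw [ebe, (odq.mul_ev evA).map_d_mul, odq.map_d_mul, dq, W.dA, zero_mul, mul_zero, sub_zero,
      zero_mul, mul_zero, sub_zero]
  have dF : W.F.map M.d = -(W.q * W.D * W.q * W.A) := by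
    rw [eF, (odq.mul odD).map_d_mul, odq.map_d_mul, dq, W.dD, zero_mul, mul_zero, sub_zero,
      zero_mul, zero_add, dP, mul_neg]
    simp only [mul_assoc]
  have iA : W.A.map M.i = 0 := by
    ext a b; exact M.i_zero 0 _ (W.A_mem a b)
  have iQ : W.Q.map M.i = 0 := by
    ext a b; exact M.i_zero 0 _ (W.Q_mem a b)
  have iq : W.q.map M.i = 0 := by
    show (W.Q.map M.d).map M.i = 0
    rw [map_i_d, iQ]
    ext a b; simp
  have iP : W.P.map M.i = 0 := by
    rw [ePd, map_i_sub, map_i_one, evQ.map_i_mul, iA, iQ, mul_zero, zero_mul, add_zero, sub_zero]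
  have iP' : W.P'.map M.i = 0 := by
    rw [ePd', map_i_sub, map_i_one, evA.map_i_mul, iA, iQ, mul_zero, zero_mul, add_zero, sub_zero]
  have iF : W.F.map M.i = 0 := by
    rw [eF, (odq.mul odD).map_i_mul, odq.map_i_mul, iq, W.iD, iP, zero_mul, mul_zero, add_zero,
      zero_sub, neg_mul, mul_assoc, AP, mul_zero, neg_zero]
  have ibe : W.be.map M.i = 0 := by
    rw [ebe, (odq.mul_ev evA).map_i_mul, odq.map_i_mul, iq, iA, zero_mul, mul_zero, sub_zero,
      zero_mul, mul_zero, sub_zero]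
  have iom : W.om.map M.i = 0 := by
    rw [eom, (((evP'.mul_od odD).mul_ev evQ).mul odD).map_i_mul,
      ((evP'.mul_od odD).mul_ev evQ).map_i_mul, (evP'.mul_od odD).map_i_mul, evP'.map_i_mul,
      iP', iQ, iP, W.iD, P'A]
    simp only [zero_mul, mul_zero, add_zero, sub_zero, zero_sub, zero_add]
    rw [P'DQA, neg_mul, P'DP, neg_zero]
  exact ⟨evA, evQ, odD, odq, evpi, eveps, evP, evP', evF, evbe, evom, AP, P'A, PP, P'P', PT, AqA,
    P'DP, AQDP, P'DQA, AqDP, P'DqA, P'DqDP, AF, FP, PF, qT, FT, FTA, FTP', P'FT, beT, Abe, beA,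
    Pbe, beP', omT, P'om, omP, dq, dP, dP', dbe, dF, iA, iQ, iq, iP, iP', iF, ibe, iom⟩

theorem scal (hb : BasicStmt) : ScalStmt := by
  intro Λ _ _ M n W hn
  have B := hb Λ M n W
  have hn2 : ((n : ℂ) - 2) ≠ 0 := by
    intro h
    have h1 : (n : ℂ) = ((2 : ℕ) : ℂ) := by push_cast; linear_combination h
    have h2 : n = 2 := by exact_mod_cast h1
    omega
  have eal : W.al = ((n : ℂ) - 2)⁻¹ • (W.Q * W.D).trace := rfl
  have eh : W.h = M.d W.al := rfl
  have eDh : W.Dh = W.D - W.al • W.A := rfl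
  have QD_mem : MG M 1 0 (W.Q * W.D) := by
    have := MG.mul (M := M) (p := 0) (q := 0) (p' := 1) (q' := 0) W.Q_mem W.D_mem
    simpa using this
  have al_mem : W.al ∈ M.G 1 0 := by
    rw [eal]; exact Submodule.smul_mem _ _ QD_mem.trace
  have h_mem : W.h ∈ M.G 1 1 := M.d_mem _ _ _ al_mem
  have s_al : M.s W.al = -W.al := s_odd al_mem (by decide)
  have s_h : M.s W.h = W.h := s_even h_mem (by decide)
  have i_al : M.i W.al = 1 := by
    rw [eal, map_smul, i_trace, B.evQ.map_i_mul, B.iQ, W.iD, zero_mul, zero_add, W.trQA,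
      Algebra.smul_def, ← map_mul, inv_mul_cancel₀ hn2, map_one]
  have dh : M.d W.h = 0 := M.d_d _
  have ih : M.i W.h = 0 := by
    have h1 := M.d_i W.al
    rw [i_al, d_one] at h1
    rw [eh]
    exact neg_eq_zero.mp h1.symm
  have hh : W.h = ((n : ℂ) - 2)⁻¹ • (W.q * W.D).trace := by
    rw [eh, eal, map_smul, d_trace, B.evQ.map_d_mul, W.dD, mul_zero, add_zero]
    rfl
  have c1 : (W.q * W.D * (W.Q * W.A)).trace = (W.q * (W.A * W.Q * W.D)).trace := by
    have e1 : (W.q * W.D)ᵀ = -(W.D * W.q) := by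
      rw [B.odq.transpose_mul B.odD, W.D_skew, B.qT, neg_mul_neg]
    have e2 : (W.Q * W.A)ᵀ = W.A * W.Q := by
      rw [B.evQ.transpose_mul, W.A_skew, W.Q_skew, neg_mul_neg]
    have e3 : (W.q * W.D * (W.Q * W.A))ᵀ = -(W.A * W.Q * W.D * W.q) := by
      rw [(B.odq.mul B.odD).transpose_mul, e1, e2, mul_neg, mul_assoc (W.A * W.Q)]
    rw [← Matrix.trace_transpose, e3, Matrix.trace_neg,
      ((B.evA.mul B.evQ).mul_od B.odD).trace_mul_comm B.odq, neg_neg]
  have c2 : (W.q * (W.A * W.Q * W.D * (W.Q * W.A))).trace = 0 := by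
    have e1 : W.q * (W.A * W.Q * W.D * (W.Q * W.A)) = (W.q * W.A * W.Q * W.D * W.Q) * W.A := by
      simp only [mul_assoc]
    rw [e1, ← B.evA.trace_mul_comm]
    have e2 : W.A * (W.q * W.A * W.Q * W.D * W.Q) = (W.A * W.q * W.A) * W.Q * W.D * W.Q := by
      simp only [mul_assoc]
    rw [e2, B.AqA, zero_mul, zero_mul, zero_mul, Matrix.trace_zero]
  have c3 : (W.q * W.D).trace = (2 : ℂ) • (W.q * W.D * (W.Q * W.A)).trace := by
    have e1 : W.q * (W.P' * W.D * W.P) = W.q * W.D - W.q * (W.A * W.Q * W.D)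
        - W.q * W.D * (W.Q * W.A) + W.q * (W.A * W.Q * W.D * (W.Q * W.A)) := by
      show W.q * ((1 - W.A * W.Q) * W.D * (1 - W.Q * W.A)) = _
      noncomm_ring
    rw [B.P'DP, mul_zero] at e1
    have e2 := congrArg Matrix.trace e1
    rw [Matrix.trace_zero, Matrix.trace_add, Matrix.trace_sub, Matrix.trace_sub, c2, add_zero,
      ← c1] at e2
    rw [two_smul]
    have e3 : (W.q * W.D).trace - (W.q * W.D * (W.Q * W.A)).trace
        - (W.q * W.D * (W.Q * W.A)).trace = 0 := e2.symm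
    rw [sub_sub, sub_eq_zero] at e3
    exact e3
  have t_eq : W.t = (((n : ℂ) - 2) / 2) • W.h := by
    have e1 : W.t = (W.q * W.D).trace - (W.q * W.D * (W.Q * W.A)).trace := by
      show (W.q * W.D * (1 - W.Q * W.A)).trace = _
      rw [mul_sub, mul_one, Matrix.trace_sub]
    have e2 : W.t = (W.q * W.D * (W.Q * W.A)).trace := by
      rw [e1, c3, two_smul, add_sub_cancel_right]
    rw [e2, hh, smul_smul, c3, smul_smul]
    have e3 : ((n : ℂ) - 2) / 2 * ((n : ℂ) - 2)⁻¹ * 2 = 1 := by field_simp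
    rw [e3, one_smul]
  have odDh : Od M W.Dh := B.odD.sub (Od.smul_ev s_al B.evA)
  have iDh : W.Dh.map M.i = 0 := by
    rw [eDh, map_i_sub, map_i_smul, W.iD, i_al, B.iA, one_smul, smul_zero, add_zero, sub_self]
  have dDh : W.Dh.map M.d = -(W.h • W.A) := by
    rw [eDh, map_d_sub, map_d_smul, W.dD, W.dA, smul_zero, add_zero, zero_sub]
    rfl
  have P'Dh : W.P' * W.Dh = W.P' * W.D := by
    rw [eDh, mul_sub, mul_smul_od_ev B.evP', B.P'A, smul_zero, sub_zero]
  have DhP : W.Dh * W.P = W.D * W.P := by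
    rw [eDh, sub_mul, smul_mul', B.AP, smul_zero, sub_zero]
  exact ⟨al_mem, h_mem, s_al, s_h, i_al, dh, ih, t_eq, odDh, iDh, dDh, P'Dh, DhP⟩

end Pool.Agent.SkewP4.H54

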